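import Mathlib

namespace Pool.Agent.Results.MP_e5500d_nt.AlternatingSum

open Finset

/-- `S_n` (`S_1 = S_2 = 0`, and for `n ≥ 3` the sum over `0 ≤ k ≤ n - 3`). -/
def S (n : ℕ) : ℤ :=
  if n < 3 then 0 else
    ∑ k ∈ range (n - 2), (-1) ^ k * ((2 * k).choose k : ℤ) * ((n - 3).choose k : ℤ) * (k.choose (n - 3 - k) : ℤ)

/-- `T_m = S_{m+2} + 12 S_{m+1} + 16 S_m`. -/
def T (m : ℕ) : ℤ := S (m + 2) + 12 * S (m + 1) + 16 * S m

/-- `A(N) = ∑_{k=1}^N (-1)^k T_k / k`, as a rational number. -/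
def A (N : ℕ) : ℚ := ∑ k ∈ Icc 1 N, (-1) ^ k * (T k : ℚ) / k

/-- `c(N,j) = C(N,2j) C(2j,j)` -/
def c (N j : ℕ) : ℕ := N.choose (2 * j) * (2 * j).choose j

lemma c_zero {N j : ℕ} (h : N < 2 * j) : c N j = 0 := by
  unfold c; rw [Nat.choose_eq_zero_of_lt h, zero_mul]

/-- `(N+1) c(N,j) = (N+1-2j) c(N+1,j)` -/
lemma c_up (N j : ℕ) : ((N : ℚ) + 1) * c N j = (N + 1 - 2 * j) * c (N + 1) j := by
  rcases Nat.lt_or_ge (N + 1) (2 * j) with h | h
  · rw [c_zero h, c_zero (by omega)]; simp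
  · have h1 := Nat.choose_mul_succ_eq N (2 * j)
    have h2 : ((N.choose (2 * j) : ℕ) : ℚ) * (N + 1) = ((N + 1).choose (2 * j) : ℕ) * (N + 1 - 2 * j) := by
      have : ((N.choose (2 * j) * (N + 1) : ℕ) : ℚ) = (((N + 1).choose (2 * j) * (N + 1 - 2 * j) : ℕ) : ℚ) := by rw [h1]
      rw [Nat.cast_mul, Nat.cast_mul, Nat.cast_sub h] at this
      push_cast at this
      exact this
    unfold c
    push_cast
    linear_combination ((2 * j).choose j : ℚ) * h2

/-- `(j+1)^2 c(N,j+1) = (N-2j)(N-2j-1) c(N,j)` -/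
lemma c_right (N j : ℕ) : ((j : ℚ) + 1) ^ 2 * c N (j + 1) = (N - 2 * j) * (N - 2 * j - 1) * c N j := by
  rcases Nat.lt_or_ge N (2 * j) with h | h
  · rw [c_zero h, c_zero (by omega)]; simp
  · obtain ⟨r, rfl⟩ : ∃ r, N = 2 * j + r := ⟨N - 2 * j, by omega⟩
    rcases Nat.lt_or_ge r 2 with hr | hr
    · rw [c_zero (show 2 * j + r < 2 * (j + 1) by omega)]
      have : r = 0 ∨ r = 1 := by omega
      rcases this with rfl | rfl <;> push_cast <;> ring
    · obtain ⟨s, rfl⟩ : ∃ s, r = s + 2 := ⟨r - 2, by omega⟩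
      unfold c
      rw [Nat.cast_mul, Nat.cast_mul]
      rw [Nat.cast_choose ℚ (show 2 * (j + 1) ≤ 2 * j + (s + 2) by omega), Nat.cast_choose ℚ (show j + 1 ≤ 2 * (j + 1) by omega),
        Nat.cast_choose ℚ (show 2 * j ≤ 2 * j + (s + 2) by omega), Nat.cast_choose ℚ (show j ≤ 2 * j by omega)]
      have e1 : 2 * j + (s + 2) - 2 * (j + 1) = s := by omega
      have e2 : 2 * (j + 1) - (j + 1) = j + 1 := by omega
      have e3 : 2 * j + (s + 2) - 2 * j = s + 2 := by omega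
      have e4 : 2 * j - j = j := by omega
      rw [e1, e2, e3, e4]
      have f1 : ((s + 2).factorial : ℚ) = (s + 2) * (s + 1) * (s.factorial : ℚ) := by
        rw [Nat.factorial_succ, Nat.factorial_succ]; push_cast; ring
      have f2 : ((j + 1).factorial : ℚ) = (j + 1) * (j.factorial : ℚ) := by
        rw [Nat.factorial_succ]; push_cast; ring
      have hs : (s.factorial : ℚ) ≠ 0 := by exact_mod_cast s.factorial_ne_zero
      have hj : (j.factorial : ℚ) ≠ 0 := by exact_mod_cast j.factorial_ne_zero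
      have h2j : ((2 * j).factorial : ℚ) ≠ 0 := by exact_mod_cast (2 * j).factorial_ne_zero
      have h2j2 : ((2 * (j + 1)).factorial : ℚ) ≠ 0 := by exact_mod_cast (2 * (j + 1)).factorial_ne_zero
      rw [f1, f2]
      field_simp
      push_cast
      ring

def cb (m : ℕ) : ℕ := (2 * m).choose m

lemma cb_succ (m : ℕ) : ((m : ℚ) + 1) * cb (m + 1) = 2 * (2 * m + 1) * cb m := by
  have := Nat.succ_mul_centralBinom_succ m
  unfold cb
  rw [Nat.centralBinom, Nat.centralBinom] at this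
  exact_mod_cast this

/-- `S_{m+3}` in the second form -/
lemma S_eq (m : ℕ) : S (m + 3) = ∑ j ∈ range (m + 1), (-1) ^ m * (-1) ^ j * (cb (m - j) : ℤ) * (c m j : ℤ) := by
  unfold S
  rw [if_neg (by omega), show m + 3 - 2 = m + 1 by omega, show m + 3 - 3 = m by omega]
  rw [← Finset.sum_range_reflect]
  refine Finset.sum_congr rfl fun j hj => ?_
  have hj := Finset.mem_range.1 hj
  rw [show m + 1 - 1 - j = m - j by omega]
  have e1 : m - (m - j) = j := by omega
  rw [e1, Nat.choose_symm (show j ≤ m by omega)]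
  have h1 : (-1 : ℤ) ^ (m - j) = (-1) ^ m * (-1) ^ j := by
    rw [← pow_add]
    have : m + j = (m - j) + 2 * j := by omega
    rw [this, pow_add, pow_mul]; simp
  rw [h1]
  have h2 : m.choose j * (m - j).choose j = c m j := by
    unfold c
    rcases Nat.lt_or_ge m (2 * j) with h | h
    · rw [Nat.choose_eq_zero_of_lt (show m - j < j by omega), Nat.choose_eq_zero_of_lt h]; simp
    · have := Nat.choose_mul (n := m) (show j ≤ 2 * j by omega)
      rw [this]
      congr 2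
      omega
  have h3 : ((m.choose j : ℤ)) * ((m - j).choose j : ℤ) = (c m j : ℤ) := by exact_mod_cast h2
  unfold cb
  rw [mul_assoc _ ((m.choose j : ℤ)), h3]

/-- `B(N+2)`: `2 ∑ (-1)^j (N+2-2j) c(N,j) Cat(N+1-j)`. -/
def BB (N : ℕ) : ℚ := ∑ j ∈ range (N + 2), 2 * ((-1) ^ j * ((N : ℚ) + 2 - 2 * j) * c N j * cb (N + 1 - j) / ((N : ℚ) + 2 - j))

/-- numerator of the certificate -/
def Y (n j : ℚ) : ℚ := (24 - 12 * n - 26 * n ^ 2 + 22 * n ^ 3 - 4 * n ^ 4) + (12 + 16 * n - 24 * n ^ 2 + 4 * n ^ 3) * j + (8 * n - 8) * j ^ 2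

def G (N j : ℕ) : ℚ := (-1) ^ j * cb (N + 2 - j) * c (N + 2) j * (j : ℚ) ^ 2 * Y (N + 3) j / (((N : ℚ) + 1) * ((N : ℚ) + 2)) / (((N : ℚ) + 3 - j) * (2 * ((N : ℚ) + 2 - j) - 1))

def F (N j : ℕ) : ℚ :=
  ((N : ℚ) + 3) * (N + 1) * (2 * ((-1) ^ j * ((N : ℚ) + 3 - 2 * j) * c (N + 1) j * cb (N + 2 - j) / ((N : ℚ) + 3 - j)))
  - ((N : ℚ) + 3) * (N + 2) * (2 * ((-1) ^ j * ((N : ℚ) + 2 - 2 * j) * c N j * cb (N + 1 - j) / ((N : ℚ) + 2 - j)))
  + ((N : ℚ) + 2) * (N + 1) * ((-1) ^ j * (c (N + 2) j * cb (N + 2 - j) - 12 * (c (N + 1) j * cb (N + 1 - j)) + 16 * (c N j * cb (N - j))))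

lemma FG (N j : ℕ) : F N j = G N (j + 1) - G N j := by
  rcases Nat.lt_or_ge (N + 2) (2 * j) with h | h
  · unfold F G
    rw [c_zero h, c_zero (show N + 1 < 2 * j by omega), c_zero (show N < 2 * j by omega), c_zero (show N + 2 < 2 * (j + 1) by omega)]
    simp
  · obtain ⟨m, hm⟩ : ∃ m, N + 1 = j + m := ⟨N + 1 - j, by omega⟩
    rcases Nat.eq_zero_or_pos m with rfl | hmpos
    · have hN : N = 0 := by omega
      have hj : j = 1 := by omega
      subst hN hj
      unfold F G Y c cb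
      norm_num [Nat.choose]
    · obtain ⟨m', rfl⟩ : ∃ m', m = m' + 1 := ⟨m - 1, by omega⟩
      have hN : N = j + m' := by omega
      subst hN
      have e1 : j + m' + 2 - j = m' + 2 := by omega
      have e2 : j + m' + 1 - j = m' + 1 := by omega
      have e3 : j + m' - j = m' := by omega
      have e4 : j + m' + 2 - (j + 1) = m' + 1 := by omega
      have c1 := c_up (j + m' + 1) j
      have c0 := c_up (j + m') j
      have cr := c_right (j + m' + 2) j
      have k1 := cb_succ m'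
      have k2 := cb_succ (m' + 1)
      unfold F G
      rw [e1, e2, e3, e4]
      have n1 : ((j : ℚ) + m' + 2) ≠ 0 := by positivity
      have n2 : ((j : ℚ) + m' + 1) ≠ 0 := by positivity
      have n3 : ((j : ℚ) + 1) ≠ 0 := by positivity
      have n4 : ((m' : ℚ) + 1) ≠ 0 := by positivity
      have n5 : ((m' : ℚ) + 2) ≠ 0 := by positivity
      have n6 : ((m' : ℚ) + 3) ≠ 0 := by positivity
      have n7 : (2 * (m' : ℚ) + 1) ≠ 0 := by positivity
      have n8 : (2 * (m' : ℚ) + 3) ≠ 0 := by positivity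
      push_cast at c1 c0 cr k1 k2 ⊢
      have hc1 : (c (j + m' + 1) j : ℚ) = ((m' : ℚ) + 2 - j) * c (j + m' + 1 + 1) j / ((j : ℚ) + m' + 2) := by
        rw [eq_div_iff n1]; linear_combination c1
      have hc0 : (c (j + m') j : ℚ) = ((m' : ℚ) + 1 - j) * (((m' : ℚ) + 2 - j) * c (j + m' + 1 + 1) j / ((j : ℚ) + m' + 2)) / ((j : ℚ) + m' + 1) := by
        rw [← hc1, eq_div_iff n2]; linear_combination c0
      have hcr : (c (j + m' + 2) (j + 1) : ℚ) = ((m' : ℚ) + 2 - j) * ((m' : ℚ) + 1 - j) * c (j + m' + 1 + 1) j / ((j : ℚ) + 1) ^ 2 := by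
        rw [eq_div_iff (pow_ne_zero 2 n3)]; linear_combination cr
      have hk1 : (cb (m' + 1) : ℚ) = 2 * (2 * m' + 1) * cb m' / ((m' : ℚ) + 1) := by
        rw [eq_div_iff n4]; linear_combination k1
      have hk2 : (cb (m' + 2) : ℚ) = 2 * (2 * m' + 3) * (2 * (2 * m' + 1) * cb m' / ((m' : ℚ) + 1)) / ((m' : ℚ) + 2) := by
        rw [← hk1, eq_div_iff n5]; linear_combination k2
      rw [hc0, hc1, hcr, hk1, hk2]
      have d1 : ((j : ℚ) + m' + 3 - j) = m' + 3 := by ring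
      have d2 : ((j : ℚ) + m' + 2 - j) = m' + 2 := by ring
      have d3 : ((j : ℚ) + m' + 3 - (j + 1)) = m' + 2 := by ring
      have d4 : (2 * ((j : ℚ) + m' + 2 - (j + 1)) - 1) = 2 * m' + 1 := by ring
      have d5 : (2 * ((m' : ℚ) + 2) - 1) = 2 * m' + 3 := by ring
      rw [d1, d2, d3, d4, d5]
      unfold Y
      field_simp
      ring

lemma sum_F (N : ℕ) : ∑ j ∈ range (N + 3), F N j = 0 := by
  rw [Finset.sum_congr rfl fun j _ => FG N j, Finset.sum_range_sub]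
  unfold G
  rw [c_zero (show N + 2 < 2 * (N + 3) by omega)]
  simp

lemma s_cast (m K : ℕ) (hK : m + 1 ≤ K) : (S (m + 3) : ℚ) = ∑ j ∈ range K, (-1) ^ m * (-1) ^ j * (cb (m - j) : ℚ) * (c m j : ℚ) := by
  rw [S_eq]
  push_cast
  apply Finset.sum_subset
  · exact Finset.range_subset_range.2 hK
  · intro x _ hx
    have hx : ¬ x < m + 1 := fun h => hx (Finset.mem_range.2 h)
    rw [c_zero (show m < 2 * x by omega)]
    simp

lemma rec_BB (N : ℕ) : ((N : ℚ) + 3) * (N + 1) * BB (N + 1) - ((N : ℚ) + 3) * (N + 2) * BB N =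
    ((N : ℚ) + 2) * (N + 1) * ((-1) ^ (N + 3) * (T (N + 3) : ℚ)) := by
  have hT : (T (N + 3) : ℚ) = (S (N + 2 + 3) : ℚ) + 12 * (S (N + 1 + 3) : ℚ) + 16 * (S (N + 3) : ℚ) := by
    unfold T; push_cast; ring
  rw [hT, s_cast (N + 2) (N + 3) (by omega), s_cast (N + 1) (N + 3) (by omega), s_cast N (N + 3) (by omega)]
  have h1 : BB N = ∑ j ∈ range (N + 3), 2 * ((-1) ^ j * ((N : ℚ) + 2 - 2 * j) * c N j * cb (N + 1 - j) / ((N : ℚ) + 2 - j)) := by
    unfold BB
    rw [Finset.sum_range_succ _ (N + 2), c_zero (show N < 2 * (N + 2) by omega)]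
    simp
  have h2 : BB (N + 1) = ∑ j ∈ range (N + 3), 2 * ((-1) ^ j * ((N : ℚ) + 3 - 2 * j) * c (N + 1) j * cb (N + 2 - j) / ((N : ℚ) + 3 - j)) := by
    unfold BB
    refine Finset.sum_congr rfl fun j _ => ?_
    push_cast
    have e1 : (N : ℚ) + 1 + 2 - 2 * j = N + 3 - 2 * j := by ring
    have e2 : (N : ℚ) + 1 + 2 - j = N + 3 - j := by ring
    rw [e1, e2]
  rw [← sub_eq_zero, ← sum_F N, h1, h2]
  simp only [Finset.mul_sum, ← Finset.sum_sub_distrib, ← Finset.sum_add_distrib]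
  refine Finset.sum_congr rfl fun j _ => ?_
  unfold F
  have e3 : ((-1 : ℚ)) ^ (N + 3) = - (-1) ^ N := by rw [pow_add]; norm_num
  have e4 : ((-1 : ℚ)) ^ (N + 2) = (-1) ^ N := by rw [pow_add]; norm_num
  have e5 : ((-1 : ℚ)) ^ (N + 1) = - (-1) ^ N := by rw [pow_add]; norm_num
  have e6 : ((-1 : ℚ)) ^ N * (-1) ^ N = 1 := by rw [← mul_pow]; norm_num
  rw [e3, e4, e5]
  linear_combination (((N : ℚ) + 2) * (N + 1) * (-1) ^ j * (c (N + 2) j * cb (N + 2 - j) - 12 * (c (N + 1) j * cb (N + 1 - j)) + 16 * (c N j * cb (N - j)))) * e6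

lemma A_succ (N : ℕ) : A (N + 1) = A N + (-1) ^ (N + 1) * (T (N + 1) : ℚ) / ((N : ℚ) + 1) := by
  unfold A
  rw [Finset.sum_Icc_succ_top (by omega)]
  push_cast
  rfl

lemma A_BB (N : ℕ) : ((N : ℚ) + 1) * A (N + 2) = BB N := by
  induction N with
  | zero =>
    have h1 : S 1 = 0 := by decide
    have h2 : S 2 = 0 := by decide
    have h3 : S 3 = 1 := by decide +kernel
    have h4 : S 4 = -2 := by decide +kernel
    have hT1 : T 1 = 1 := by unfold T; rw [h1, h2, h3]; norm_num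
    have hT2 : T 2 = 10 := by unfold T; rw [h2, h3, h4]; norm_num
    have hA2 : A 2 = 4 := by
      rw [A_succ 1, A_succ 0]
      have : A 0 = 0 := by unfold A; simp
      rw [this, hT1, hT2]; norm_num
    have hB : BB 0 = 4 := by
      unfold BB c cb
      norm_num [Finset.sum_range_succ, Nat.choose]
    rw [hB, hA2]; norm_num
  | succ N ih =>
    have h1 := rec_BB N
    have h2 := A_succ (N + 2)
    have n1 : ((N : ℚ) + 1) ≠ 0 := by positivity
    have n3 : ((N : ℚ) + 3) ≠ 0 := by positivity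
    have h3 : ((N : ℚ) + 3) * A (N + 3) = (N + 3) * A (N + 2) + (-1) ^ (N + 3) * (T (N + 3) : ℚ) := by
      rw [h2]; push_cast
      have : ((N : ℚ) + 2 + 1) = N + 3 := by ring
      rw [this]; field_simp
    have h4 : ((N : ℚ) + 3) * (N + 1) * ((N + 2) * A (N + 3)) = (N + 3) * (N + 1) * BB (N + 1) := by
      rw [← ih] at h1
      linear_combination ((N : ℚ) + 1) * (N + 2) * h3 - h1
    have h5 := mul_left_cancel₀ (mul_ne_zero n3 n1) h4
    push_cast
    rw [← h5]; ring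

/-- ballot difference -/
def β (n j : ℕ) : ℤ := ((n - 1).choose j : ℤ) - (if j = 0 then 0 else ((n - 1).choose (j - 1) : ℤ))

/-- `V(n)` -/
def V (n : ℕ) : ℤ := ∑ j ∈ range n, (-1) ^ j * β n j * ((n - 1).choose j : ℤ) * ((2 * (n - 1 - j)).choose n : ℤ)

lemma beta_eq (n j : ℕ) (hn : 0 < n) (hj : j ≤ n) : (n : ℚ) * β n j = ((n : ℚ) - 2 * j) * (n.choose j : ℚ) := by
  obtain ⟨k, rfl⟩ : ∃ k, n = k + 1 := ⟨n - 1, by omega⟩
  unfold β
  simp only [Nat.add_sub_cancel]
  rcases Nat.eq_zero_or_pos j with rfl | hjpos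
  · simp
  · rw [if_neg (by omega)]
    obtain ⟨i, rfl⟩ : ∃ i, j = i + 1 := ⟨j - 1, by omega⟩
    simp only [Nat.add_sub_cancel]
    have h1 := Nat.choose_mul_succ_eq k (i + 1)
    have h2 : ((k.choose (i + 1) : ℕ) : ℚ) * (k + 1) = ((k + 1).choose (i + 1) : ℕ) * ((k : ℚ) - i) := by
      have : ((k.choose (i + 1) * (k + 1) : ℕ) : ℚ) = (((k + 1).choose (i + 1) * (k + 1 - (i + 1)) : ℕ) : ℚ) := by rw [h1]
      rw [Nat.cast_mul, Nat.cast_mul, Nat.cast_sub hj] at this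
      push_cast at this
      rw [this]; ring
    have h3 := Nat.add_one_mul_choose_eq k i
    have h4 : ((k : ℚ) + 1) * (k.choose i : ℕ) = ((k + 1).choose (i + 1) : ℕ) * ((i : ℚ) + 1) := by exact_mod_cast h3
    push_cast
    linear_combination h2 - h4

lemma term_V (N j : ℕ) : ((N : ℚ) + 1) * (2 * ((-1) ^ j * ((N : ℚ) + 2 - 2 * j) * c N j * cb (N + 1 - j) / ((N : ℚ) + 2 - j))) =
    2 * ((N : ℚ) + 2) * ((-1) ^ j * β (N + 2) j * ((N + 2 - 1).choose j : ℚ) * ((2 * (N + 2 - 1 - j)).choose (N + 2) : ℚ)) := by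
  rcases Nat.lt_or_ge N (2 * j) with h | h
  · rw [c_zero h, Nat.choose_eq_zero_of_lt (show 2 * (N + 2 - 1 - j) < N + 2 by omega)]
    simp
  · obtain ⟨r, rfl⟩ : ∃ r, N = 2 * j + r := ⟨N - 2 * j, by omega⟩
    have hb := beta_eq (2 * j + r + 2) j (by omega) (by omega)
    have e1 : 2 * j + r + 1 - j = j + r + 1 := by omega
    have e2 : 2 * j + r + 2 - 1 = 2 * j + r + 1 := by omega
    rw [e2, e1]
    have e3 : ((2 * j + r : ℕ) : ℚ) + 2 - j = j + r + 2 := by push_cast; ring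
    rw [e3]
    -- replace beta
    have hb2 : ((2 * j + r : ℕ) : ℚ) + 2 = ((2 * j + r + 2 : ℕ) : ℚ) := by push_cast; ring
    have hR : 2 * (((2 * j + r : ℕ) : ℚ) + 2) * ((-1) ^ j * β (2 * j + r + 2) j * ((2 * j + r + 1).choose j : ℚ) * ((2 * (j + r + 1)).choose (2 * j + r + 2) : ℚ)) =
        2 * ((-1) ^ j * ((((2 * j + r + 2 : ℕ) : ℚ) - 2 * j) * ((2 * j + r + 2).choose j : ℚ)) * ((2 * j + r + 1).choose j : ℚ) * ((2 * (j + r + 1)).choose (2 * j + r + 2) : ℚ)) := by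
      rw [← hb, hb2]; ring
    rw [hR]
    unfold c cb
    rw [Nat.cast_mul]
    rw [Nat.cast_choose ℚ (show 2 * j ≤ 2 * j + r by omega), Nat.cast_choose ℚ (show j ≤ 2 * j by omega),
      Nat.cast_choose ℚ (show j + r + 1 ≤ 2 * (j + r + 1) by omega), Nat.cast_choose ℚ (show j ≤ 2 * j + r + 2 by omega),
      Nat.cast_choose ℚ (show j ≤ 2 * j + r + 1 by omega), Nat.cast_choose ℚ (show 2 * j + r + 2 ≤ 2 * (j + r + 1) by omega)]
    have g1 : 2 * j + r - 2 * j = r := by omega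
    have g2 : 2 * j - j = j := by omega
    have g3 : 2 * (j + r + 1) - (j + r + 1) = j + r + 1 := by omega
    have g4 : 2 * j + r + 2 - j = j + r + 1 + 1 := by omega
    have g5 : 2 * j + r + 1 - j = j + r + 1 := by omega
    have g6 : 2 * (j + r + 1) - (2 * j + r + 2) = r := by omega
    rw [g1, g2, g3, g4, g5, g6]
    have f1 : ((2 * j + r + 2).factorial : ℚ) ≠ 0 := by exact_mod_cast (2 * j + r + 2).factorial_ne_zero
    have f2 : ((2 * j + r + 1).factorial : ℚ) = ((2 : ℚ) * j + r + 1) * ((2 * j + r).factorial : ℚ) := by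
      rw [Nat.factorial_succ]; push_cast; ring
    have f3 : ((j + r + 1 + 1).factorial : ℚ) = ((j : ℚ) + r + 2) * ((j + r + 1).factorial : ℚ) := by
      rw [Nat.factorial_succ]; push_cast; ring
    have f4 : ((j + r + 1).factorial : ℚ) ≠ 0 := by exact_mod_cast (j + r + 1).factorial_ne_zero
    have f5 : (r.factorial : ℚ) ≠ 0 := by exact_mod_cast r.factorial_ne_zero
    have f6 : (j.factorial : ℚ) ≠ 0 := by exact_mod_cast j.factorial_ne_zero
    have f7 : ((2 * j).factorial : ℚ) ≠ 0 := by exact_mod_cast (2 * j).factorial_ne_zero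
    have f8 : ((j : ℚ) + r + 2) ≠ 0 := by positivity
    rw [f2, f3]
    push_cast
    field_simp

lemma V_eq (N : ℕ) : ((N : ℚ) + 1) ^ 2 * A (N + 2) = 2 * ((N : ℚ) + 2) * V (N + 2) := by
  have h1 : ((N : ℚ) + 1) ^ 2 * A (N + 2) = ((N : ℚ) + 1) * BB N := by rw [← A_BB]; ring
  rw [h1]
  unfold BB V
  push_cast
  rw [Finset.mul_sum, Finset.mul_sum]
  exact Finset.sum_congr rfl fun j _ => term_V N j

lemma BB_int (N : ℕ) : ∃ z : ℤ, BB N = z := by
  have h : ∀ j ∈ range (N + 2), ∃ z : ℤ, 2 * ((-1) ^ j * ((N : ℚ) + 2 - 2 * j) * c N j * cb (N + 1 - j) / ((N : ℚ) + 2 - j)) = z := by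
    intro j hj
    have hj := Finset.mem_range.1 hj
    obtain ⟨m, hm⟩ : ∃ m, N + 1 = j + m := ⟨N + 1 - j, by omega⟩
    have e1 : N + 1 - j = m := by omega
    have e2 : (N : ℚ) + 2 - j = (m : ℚ) + 1 := by
      have : ((N + 1 : ℕ) : ℚ) = ((j + m : ℕ) : ℚ) := by rw [hm]
      push_cast at this; linarith
    obtain ⟨q, hq⟩ := Nat.succ_dvd_centralBinom m
    have hcb : (cb m : ℚ) = ((m : ℚ) + 1) * q := by
      unfold cb
      rw [Nat.centralBinom] at hq
      exact_mod_cast hq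
    refine ⟨2 * ((-1) ^ j * ((N : ℤ) + 2 - 2 * j) * c N j * q), ?_⟩
    rw [e1, e2, hcb]
    have n1 : ((m : ℚ) + 1) ≠ 0 := by positivity
    push_cast
    field_simp
  unfold BB
  choose! g hg using h
  refine ⟨∑ j ∈ range (N + 2), g j, ?_⟩
  push_cast
  exact Finset.sum_congr rfl fun j hj => hg j hj

lemma A_int (n : ℕ) : ∃ z : ℤ, A (n + 2) = z := by
  cases n with
  | zero =>
    obtain ⟨z, hz⟩ := BB_int 0
    have := A_BB 0
    refine ⟨z, ?_⟩
    rw [← hz, ← this]; push_cast; ring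
  | succ N =>
    obtain ⟨z1, hz1⟩ := BB_int (N + 1)
    obtain ⟨z0, hz0⟩ := BB_int N
    have h1 := A_BB (N + 1)
    have h0 := A_BB N
    have h2 := A_succ (N + 2)
    have n3 : ((N : ℚ) + 3) ≠ 0 := by positivity
    have h3 : ((N : ℚ) + 3) * A (N + 3) = (N + 3) * A (N + 2) + (-1) ^ (N + 3) * (T (N + 3) : ℚ) := by
      rw [h2]; push_cast
      have : ((N : ℚ) + 2 + 1) = N + 3 := by ring
      rw [this]; field_simp
    refine ⟨((N : ℤ) + 2) * z1 - ((N : ℤ) + 3) * z0 - (N + 1) * ((-1) ^ (N + 3) * T (N + 3)), ?_⟩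
    push_cast
    rw [← hz1, ← hz0, ← h1, ← h0]
    have e : A (N + 1 + 2) = A (N + 3) := rfl
    push_cast
    rw [e]
    linear_combination (-(N : ℚ) - 1) * h3

lemma Q1 (n : ℕ) : ∃ z : ℤ, A (n + 2) = ((n : ℚ) + 2) * z ∧ z = 2 * V (n + 2) - n * (Classical.choose (A_int n)) := by
  have hz := Classical.choose_spec (A_int n)
  refine ⟨2 * V (n + 2) - n * (Classical.choose (A_int n)), ?_, rfl⟩
  have h := V_eq n
  push_cast
  rw [← hz]
  linear_combination h

lemma choose_neg_one (p : ℕ) [hp : Fact p.Prime] (j : ℕ) (hj : j < p) : (((p - 1).choose j : ℕ) : ZMod p) = (-1) ^ j := by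
  induction j with
  | zero => simp
  | succ j ih =>
    have ih := ih (by omega)
    have h1 : (p - 1).choose j + (p - 1).choose (j + 1) = p.choose (j + 1) := by
      obtain ⟨k, hk⟩ : ∃ k, p = k + 1 := ⟨p - 1, by omega⟩
      rw [hk, Nat.add_sub_cancel, Nat.choose_succ_succ]
    have h2 : ((p.choose (j + 1) : ℕ) : ZMod p) = 0 := by
      rw [ZMod.natCast_eq_zero_iff]
      exact hp.out.dvd_choose_self (by omega) hj
    rw [← h1] at h2
    push_cast at h2
    rw [ih] at h2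
    rw [pow_succ]
    linear_combination h2

lemma choose_p (p : ℕ) [hp : Fact p.Prime] (j : ℕ) (hj : 2 * j + 2 ≤ p) : (((2 * (p - 1 - j)).choose p : ℕ) : ZMod p) = 1 := by
  have hpp := hp.out.pos
  have h := Choose.choose_modEq_choose_mod_mul_choose_div_nat (n := 2 * (p - 1 - j)) (k := p) (p := p)
  have e0 : 2 * (p - 1 - j) = p - 2 - 2 * j + p * 1 := by omega
  have e1 : 2 * (p - 1 - j) / p = 1 := by
    rw [e0, Nat.add_mul_div_left _ _ hpp, Nat.div_eq_of_lt (by omega)]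
  rw [Nat.mod_self, Nat.choose_zero_right, e1, Nat.div_self hpp, Nat.choose_self, one_mul] at h
  have := (ZMod.natCast_eq_natCast_iff _ _ _).2 h
  simpa using this

lemma V_mod (p : ℕ) [hp : Fact p.Prime] (hp2 : p ≠ 2) : ((V p : ℤ) : ZMod p) = (-1) ^ ((p + 1) / 2) := by
  obtain ⟨q, hq⟩ := hp.out.odd_of_ne_two hp2
  have hp3 : 3 ≤ p := by have := hp.out.two_le; omega
  obtain ⟨J, hJ⟩ : ∃ J, q = J + 1 := ⟨q - 1, by omega⟩
  -- p = 2 J + 3
  have hpJ : p = 2 * J + 3 := by omega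
  have h1 : ((V p : ℤ) : ZMod p) = ∑ j ∈ range (J + 1), ((β p j : ℤ) : ZMod p) := by
    unfold V
    push_cast
    rw [← Finset.sum_subset (s₁ := range (J + 1)) (s₂ := range p)]
    · refine Finset.sum_congr rfl fun j hj => ?_
      have hj := Finset.mem_range.1 hj
      have h2 := choose_neg_one p j (by omega)
      have h3 := choose_p p j (by omega)
      rw [h2, h3]
      have h4 : ((-1 : ZMod p)) ^ j * (-1) ^ j = 1 := by rw [← mul_pow]; simp
      linear_combination ((β p j : ℤ) : ZMod p) * h4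
    · exact Finset.range_subset_range.2 (by omega)
    · intro x _ hx
      have hx : ¬ x < J + 1 := fun h => hx (Finset.mem_range.2 h)
      rw [Nat.choose_eq_zero_of_lt (show 2 * (p - 1 - x) < p by omega)]
      simp
  have h2 : ∑ j ∈ range (J + 1), ((β p j : ℤ) : ZMod p) = (((p - 1).choose J : ℕ) : ZMod p) := by
    have : ∀ K : ℕ, ∑ j ∈ range (K + 1), ((β p j : ℤ) : ZMod p) = (((p - 1).choose K : ℕ) : ZMod p) := by
      intro K
      induction K with
      | zero => simp [β]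
      | succ K ih =>
        rw [Finset.sum_range_succ, ih]
        unfold β
        rw [if_neg (by omega), Nat.add_sub_cancel]
        push_cast
        ring
    exact this J
  rw [h1, h2, choose_neg_one p J (by omega)]
  have h3 : (p + 1) / 2 = J + 2 := by omega
  rw [h3, pow_add]; simp

/-- **Main theorem** (Q1 and Q2). -/
theorem result :
    (∀ n : ℕ, 1 ≤ n → ∃ z : ℤ, A n = (n : ℚ) * z) ∧
    (∀ p : ℕ, p.Prime → p ≠ 2 → ∃ z : ℤ, A p = 2 * (p : ℚ) * (-1) ^ ((p + 1) / 2) + (p : ℚ) ^ 2 * z) := by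
  constructor
  · intro n hn
    rcases Nat.lt_or_ge n 2 with h | h
    · have : n = 1 := by omega
      subst this
      have h1 : S 1 = 0 := by decide
      have h2 : S 2 = 0 := by decide
      have h3 : S 3 = 1 := by decide +kernel
      have hT1 : T 1 = 1 := by unfold T; rw [h1, h2, h3]; norm_num
      refine ⟨-1, ?_⟩
      have : A 0 = 0 := by unfold A; simp
      rw [A_succ 0, this, hT1]; norm_num
    · obtain ⟨k, rfl⟩ : ∃ k, n = k + 2 := ⟨n - 2, by omega⟩
      obtain ⟨z, hz, _⟩ := Q1 k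
      exact ⟨z, by rw [hz]; push_cast; ring⟩
  · intro p hp hp2
    have : Fact p.Prime := ⟨hp⟩
    obtain ⟨k, hk⟩ : ∃ k, p = k + 2 := ⟨p - 2, by have := hp.two_le; omega⟩
    -- A p = p z'
    obtain ⟨z, hz, _⟩ := Q1 k
    have hV := V_eq k
    have hmod := V_mod p hp2
    have h1 : ((V p - (-1) ^ ((p + 1) / 2) : ℤ) : ZMod p) = 0 := by
      push_cast; rw [hmod]; ring
    rw [ZMod.intCast_zmod_eq_zero_iff_dvd] at h1
    obtain ⟨w, hw⟩ := h1
    have hA : A p = ((k : ℚ) + 2) * z := by rw [hk]; exact hz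
    have hV2 : ((k : ℚ) + 1) ^ 2 * A p = 2 * ((k : ℚ) + 2) * V p := by rw [hk]; exact hV
    have hpk : (p : ℚ) = (k : ℚ) + 2 := by rw [hk]; push_cast; ring
    have hw2 : (V p : ℚ) = (-1) ^ ((p + 1) / 2) + p * w := by
      have : V p = (-1) ^ ((p + 1) / 2) + p * w := by rw [← hw]; ring
      rw [this]; push_cast; ring
    refine ⟨2 * w - k * z, ?_⟩
    -- A = 2 p V - p(p-2) A = 2 p V - p (p-2) p z
    have h5 : A p = 2 * (p : ℚ) * V p - (p : ℚ) * k * A p := by
      rw [hpk]; linear_combination hV2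
    rw [h5, hw2, hA]
    push_cast
    rw [hpk]
    ring

end Pool.Agent.Results.MP_e5500d_nt.AlternatingSum
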